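import Pool.Agent.R882.GLb
import Pool.Agent.Y944.NT.NLG
import Pool.Agent.Y929.NT.W0
import Pool.Agent.Y297.NT.Pull
import Pool.Agent.Y71.NT.Abh
import Pool.Agent.N145.SX.Tri

/-!
Varieties which are covered by rational curves.
-/

set_option autoImplicit false
set_option linter.overlappingInstances false
set_option linter.unusedSectionVars false
set_option linter.unusedVariables false
set_option maxHeartbeats 4000000
set_option synthInstance.maxHeartbeats 400000

open IntermediateField Module FF Pool.Agent.W602.GT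

namespace Pool.Agent.T2h09.CM

/-- The variety `Z` with the function field `E` is covered by rational curves: there are a variety
`B`, with function field `M`, and a dominant rational map from the product of `B` and the projective
line to `Z` which is not constant on the lines over the points of `B`. -/
def RationalCurvesCover (E : Type) [Field E] [Algebra ℂ E] : Prop :=
  ∃ (M : Type) (_ : Field M) (_ : Algebra ℂ M), Algebra.EssFiniteType ℂ M ∧
    ∃ (φ : E →ₐ[ℂ] RatFunc M) (z : E), ∀ c : M, φ z ≠ algebraMap M (RatFunc M) c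

/-- A rational curve through the generic point. -/
theorem cover_of {E Λ F : Type} [Field E] [Field Λ] [Field F] [Algebra ℂ E]
    [Algebra ℂ Λ] [Algebra ℂ F] [Algebra Λ F] [IsScalarTower ℂ Λ F] [Algebra.EssFiniteType ℂ E]
    (ψ : E →ₐ[ℂ] F) (s : F) (hs : Transcendental Λ s)
    (h : ∀ e, ψ e ∈ IntermediateField.adjoin Λ {s}) (z : E)
    (hz : ∀ c : Λ, ψ z ≠ algebraMap Λ F c) : RationalCurvesCover E := by
  classical
  obtain ⟨S, hS⟩ := IntermediateField.fg_top ℂ E
  have h1 : ∀ e : E, ∃ p q : Polynomial Λ,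
      ψ e = Polynomial.aeval s p / Polynomial.aeval s q := fun e =>
    IntermediateField.mem_adjoin_simple_iff Λ (ψ e) |>.1 (h e)
  choose p q hpq using h1
  let T : Set Λ := ⋃ e ∈ S, (((p e).coeffs : Set Λ) ∪ ((q e).coeffs : Set Λ))
  have hTfin : T.Finite := by
    refine Set.Finite.biUnion S.finite_toSet fun e _ => ?_
    exact (Finset.finite_toSet _).union (Finset.finite_toSet _)
  let M : IntermediateField ℂ Λ := IntermediateField.adjoin ℂ T
  have hess : Algebra.EssFiniteType ℂ M :=
    IntermediateField.essFiniteType_iff.2 (IntermediateField.fg_adjoin_of_finite hTfin)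
  have hcoef : ∀ e ∈ S, ∀ i, (p e).coeff i ∈ M ∧ (q e).coeff i ∈ M := by
    intro e he i
    have h2 : ∀ f : Polynomial Λ, (f.coeffs : Set Λ) ⊆ T → f.coeff i ∈ M := by
      intro f hf
      by_cases h0 : f.coeff i = 0
      · rw [h0]
        exact zero_mem _
      · refine IntermediateField.subset_adjoin _ _ (hf ?_)
        exact Polynomial.coeff_mem_coeffs h0
    exact ⟨h2 _ (Set.subset_biUnion_of_mem (u := fun e => (((p e).coeffs : Set Λ) ∪
        ((q e).coeffs : Set Λ))) he |>.trans' Set.subset_union_left),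
      h2 _ (Set.subset_biUnion_of_mem (u := fun e => (((p e).coeffs : Set Λ) ∪
        ((q e).coeffs : Set Λ))) he |>.trans' Set.subset_union_right)⟩
  have hT1 : IsScalarTower ℂ M F := IsScalarTower.of_algebraMap_eq fun c => by
    rw [IsScalarTower.algebraMap_apply ℂ Λ F]
    rfl
  let R : IntermediateField M F := IntermediateField.adjoin M {s}
  have hRpoly : ∀ f : Polynomial Λ, (∀ i, f.coeff i ∈ M) → Polynomial.aeval s f ∈ R := by
    intro f hf
    rw [Polynomial.aeval_eq_sum_range]
    refine sum_mem fun i _ => ?_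
    rw [Algebra.smul_def]
    refine mul_mem ?_ (pow_mem (IntermediateField.mem_adjoin_simple_self M s) i)
    exact R.algebraMap_mem ⟨f.coeff i, hf i⟩
  have hmem : ∀ e, ψ e ∈ R.restrictScalars ℂ := by
    have h2 : (⊤ : IntermediateField ℂ E) ≤ (R.restrictScalars ℂ).comap ψ := by
      rw [← hS, IntermediateField.adjoin_le_iff]
      intro e he
      change ψ e ∈ R
      rw [hpq e]
      exact div_mem (hRpoly _ fun i => (hcoef e he i).1) (hRpoly _ fun i => (hcoef e he i).2)
    exact fun e => h2 trivial
  have hsM : Transcendental M s := by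
    intro h2
    exact hs (IsAlgebraic.tower_top Λ h2)
  let e1 : RatFunc M ≃ₐ[M] R := RatFunc.algEquivOfTranscendental s hsM
  let ψ' : E →ₐ[ℂ] R :=
    { toFun := fun e => ⟨ψ e, hmem e⟩
      map_one' := Subtype.ext (map_one _)
      map_mul' := fun a b => Subtype.ext (map_mul _ _ _)
      map_zero' := Subtype.ext (map_zero _)
      map_add' := fun a b => Subtype.ext (map_add _ _ _)
      commutes' := fun c => Subtype.ext (by
        change ψ (algebraMap ℂ E c) = _
        rw [ψ.commutes]
        rfl) }
  let φ : E →ₐ[ℂ] RatFunc M := (e1.symm.restrictScalars ℂ : R →ₐ[ℂ] RatFunc M).comp ψ'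
  refine ⟨M, inferInstance, inferInstance, hess, φ, z, fun c hc => hz c ?_⟩
  have h3 : e1.symm (ψ' z) = algebraMap M (RatFunc M) c := hc
  have h4 : ψ' z = algebraMap M R c := by
    rw [← e1.symm.commutes] at h3
    exact e1.symm.injective h3
  have h5 := congrArg Subtype.val h4
  exact h5

/-- Varieties with a regular canonical form are not covered by rational curves. -/
theorem not_cover_of_form {K : Type} [Field K] [Algebra ℂ K] [Algebra.EssFiniteType ℂ K] {n : ℕ}
    (hn : Algebra.trdeg ℂ K = n) {ω : (Fin n → Derivation ℂ K K) → K} (hω : IsPluri 1 ω)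
    (hreg : ∀ P : Place ℂ K, Divisorial n P → RegAt P ω) (hω0 : ∃ D, ω D ≠ 0) :
    ¬ RationalCurvesCover K := by
  rintro ⟨M, _, _, hess, φ, z, hz⟩
  obtain ⟨N, hN⟩ : ∃ N : ℕ, Algebra.trdeg ℂ M = N := Cardinal.lt_aleph0.1 (trdeg_lt_aleph0 ℂ M)
  obtain ⟨y, E, hy, hE⟩ := Pool.Agent.Y172.exists_crd (k := ℂ) (K := M) hN
  have hNLG : Pool.Agent.Y184.NT.StNLG := Pool.Agent.Y944.NT.stNLG
    (Pool.Agent.Y297.NT.t_Pull Pool.Agent.Y71.NT.t_abh) Pool.Agent.Y929.NT.t_W0
    Pool.Agent.Y888.NT.stDer
  obtain ⟨c, hc⟩ := hNLG K M n N hn y hy ω hω hreg hω0 φ z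
  exact hz c hc

end Pool.Agent.T2h09.CM
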