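import Pool.Agent.T2h09.CM.Pts
import Pool.Agent.T2h09.CM.Geo

/-!
The functions on the base are algebraic over the ratios of the canonical forms.
-/

set_option autoImplicit false
set_option linter.overlappingInstances false
set_option linter.unusedSectionVars false
set_option linter.unusedVariables false
set_option maxHeartbeats 4000000
set_option synthInstance.maxHeartbeats 400000

open IntermediateField Module
open Pool.Agent.N145.PC (Rt exists_pts exists_generic alg_back ratio_mem)

namespace Pool.Agent.T2h09.CM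

/-- two embeddings agree on the ratios -/
theorem agree {L : Type} [Field L] [Algebra ℂ L] {ι : Type} {T : ι → L} {Ω' : Type} [Field Ω']
    [Algebra ℂ Ω'] {i1 i2 : AlgebraicClosure L →ₐ[ℂ] Ω'} {lam : Ω'} (hlam : lam ≠ 0)
    (hT : ∀ f, i2 (algebraMap L (AlgebraicClosure L) (T f)) =
      lam * i1 (algebraMap L (AlgebraicClosure L) (T f))) {c : L} (hc : c ∈ Rt T) :
    i2 (algebraMap L (AlgebraicClosure L) c) = i1 (algebraMap L (AlgebraicClosure L) c) := by
  unfold Rt at hc
  induction hc using IntermediateField.adjoin_induction with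
  | mem z hz =>
    obtain ⟨⟨f, g⟩, rfl⟩ := hz
    simp only [map_div₀, hT]
    rw [mul_div_mul_left _ _ hlam]
  | algebraMap z =>
    rw [← IsScalarTower.algebraMap_apply ℂ L (AlgebraicClosure L), AlgHom.commutes,
      AlgHom.commutes]
  | add a b _ _ ha hb => simp only [map_add, ha, hb]
  | inv a _ ha => simp only [map_inv₀, ha]
  | mul a b _ _ ha hb => simp only [map_mul, ha, hb]

/-- algebraic elements over a field on which two embeddings agree -/
theorem alg_transfer {L : Type} [Field L] [Algebra ℂ L] {R : IntermediateField ℂ L} {Ω' : Type}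
    [Field Ω'] {i1 i2 : AlgebraicClosure L →+* Ω'}
    (h : ∀ c ∈ R, i2 (algebraMap L (AlgebraicClosure L) c) =
      i1 (algebraMap L (AlgebraicClosure L) c)) {a b : AlgebraicClosure L}
    (hab : i1 a = i2 b) (ha : IsAlgebraic R a) : IsAlgebraic R b := by
  obtain ⟨p, hp0, hp⟩ := ha
  refine ⟨p, hp0, i2.injective ?_⟩
  rw [map_zero, ← map_zero i1, ← hp, Polynomial.aeval_def, Polynomial.aeval_def,
    Polynomial.hom_eval₂, Polynomial.hom_eval₂, hab]
  congr 1
  ext c
  exact h c c.2

section

variable {L M : Type} [Field L] [Algebra ℂ L] [Field M] [Algebra ℂ M] [Algebra L M]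
  [IsScalarTower ℂ L M] [FiniteDimensional L M] {N m : ℕ} {x : Fin N → M} {j0 : Fin N}

/-- **The functions on the base are algebraic over the ratios.** -/
theorem alg_base (hj0 : x j0 = 1) (hgen : IntermediateField.adjoin L (Set.range x) = ⊤) {t : M}
    (ht : t ≠ 0) {T : (Fin m → Fin N) → L}
    (hT : ∀ f, T f = Algebra.trace L M ((∏ k, x (f k)) * t)) {f1 : Fin m → Fin N} (h1 : T f1 ≠ 0)
    (hd : finrank L M ≤ m) (h2 : 2 * finrank L M ≤ m + 1 ∨
      ¬ RationalCurvesCover (IntermediateField.adjoin ℂ (Set.range x))) (j : Fin N) :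
    IsAlgebraic (Rt T) (x j) := by
  have hchar : CharZero L := charZero_of_injective_algebraMap (algebraMap ℂ L).injective
  obtain ⟨Ω', iF, iA, iC, i1, i2, lam, hlam, hlamT, hpts⟩ := exists_pts T (f1 := f1) h1
  rcases two_fibres hj0 hgen ht (i1 : AlgebraicClosure L →+* Ω') (i2 : AlgebraicClosure L →+* Ω')
    hlam (fun f => by
      rw [← hT]
      exact hlamT f) hd with ⟨σ, τ, h3⟩ | ⟨h3, σ1, σ2, σ3, s, hs⟩
  · exact alg_back σ (hpts _ _ (h3 j))
  have h2 := h2.resolve_left (by omega)
  have hs' : ∀ j, i2 (σ3 (x j)) = i1 (σ1 (x j)) + s * (i1 (σ2 (x j)) - i1 (σ1 (x j))) := hs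
  by_cases hall : ∀ j, ∃ y, i1 y = i2 (σ3 (x j))
  · obtain ⟨y, hy⟩ := hall j
    refine alg_back σ3 ?_
    exact alg_transfer (i1 := (i1 : AlgebraicClosure L →+* Ω'))
      (i2 := (i2 : AlgebraicClosure L →+* Ω')) (fun c hc => agree hlam hlamT hc) hy
      (hpts _ _ hy)
  exfalso
  apply h2
  push Not at hall
  obtain ⟨j1, hj1⟩ := hall
  let _ : Algebra (AlgebraicClosure L) Ω' := (i1 : AlgebraicClosure L →+* Ω').toAlgebra
  have hTow : IsScalarTower ℂ (AlgebraicClosure L) Ω' :=
    IsScalarTower.of_algebraMap_eq fun c => (i1.commutes c).symm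
  have hmap : ∀ y, algebraMap (AlgebraicClosure L) Ω' y = i1 y := fun _ => rfl
  have hstr : Transcendental (AlgebraicClosure L) s := by
    intro halg
    have h5 : s ∈ (algebraMap (AlgebraicClosure L) Ω').range :=
      minpoly.mem_range_of_degree_eq_one _ _
        (IsAlgClosed.degree_eq_one_of_irreducible _ (minpoly.irreducible halg.isIntegral))
    obtain ⟨a, ha⟩ := h5
    rw [hmap] at ha
    refine hj1 (σ1 (x j1) + a * (σ2 (x j1) - σ1 (x j1))) ?_
    rw [hs', ← ha, map_add, map_mul, map_sub]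
  have hess : Algebra.EssFiniteType ℂ (IntermediateField.adjoin ℂ (Set.range x)) :=
    IntermediateField.essFiniteType_iff.2 (IntermediateField.fg_adjoin_of_finite
      (Set.finite_range x))
  let ψ : IntermediateField.adjoin ℂ (Set.range x) →ₐ[ℂ] Ω' :=
    (i2.comp (σ3.restrictScalars ℂ)).comp (IntermediateField.adjoin ℂ (Set.range x)).val
  have hψ : ∀ e, ψ e = i2 (σ3 e) := fun _ => rfl
  refine cover_of (Λ := AlgebraicClosure L) ψ s hstr ?_
    ⟨x j1, IntermediateField.subset_adjoin _ _ ⟨j1, rfl⟩⟩ fun c hc => hj1 c ?_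
  · have h6 : IntermediateField.adjoin ℂ (Set.range x) ≤
        ((IntermediateField.adjoin (AlgebraicClosure L) {s}).restrictScalars ℂ).comap
          (i2.comp (σ3.restrictScalars ℂ)) := by
      rw [IntermediateField.adjoin_le_iff]
      rintro _ ⟨j, rfl⟩
      change i2 (σ3 (x j)) ∈ IntermediateField.adjoin (AlgebraicClosure L) {s}
      rw [hs']
      have h7 : ∀ y, i1 y ∈ IntermediateField.adjoin (AlgebraicClosure L) {s} := fun y =>
        (IntermediateField.adjoin (AlgebraicClosure L) {s}).algebraMap_mem y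
      exact add_mem (h7 _) (mul_mem (IntermediateField.mem_adjoin_simple_self _ s)
        (sub_mem (h7 _) (h7 _)))
    exact fun e => h6 e.2
  · rw [hmap] at hc
    exact hc.symm

end

/-- amalgamation of fields -/
theorem amalgam {A B1 B2 : Type} [Field A] [Field B1] [Field B2] (g1 : A →+* B1)
    (g2 : A →+* B2) : ∃ (F : Type) (_ : Field F) (i1 : B1 →+* F) (i2 : B2 →+* F),
      ∀ a, i1 (g1 a) = i2 (g2 a) := by
  let _ : Algebra A B1 := g1.toAlgebra
  let _ : Algebra A B2 := g2.toAlgebra
  have hnt : Nontrivial (TensorProduct A B1 B2) :=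
    Module.FaithfullyFlat.lTensor_nontrivial A B1 B2
  obtain ⟨I, hI⟩ := Ideal.exists_maximal (TensorProduct A B1 B2)
  let iF : Field (TensorProduct A B1 B2 ⧸ I) := Ideal.Quotient.field I
  refine ⟨TensorProduct A B1 B2 ⧸ I, iF, (Ideal.Quotient.mk I).comp
    (Algebra.TensorProduct.includeLeft (R := A) (S := A) (A := B1) (B := B2)).toRingHom,
    (Ideal.Quotient.mk I).comp
    (Algebra.TensorProduct.includeRight (R := A) (A := B1) (B := B2)).toRingHom, fun a => ?_⟩
  change Ideal.Quotient.mk I (algebraMap A B1 a ⊗ₜ[A] (1 : B2)) =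
    Ideal.Quotient.mk I ((1 : B1) ⊗ₜ[A] algebraMap A B2 a)
  congr 1
  rw [Algebra.algebraMap_eq_smul_one, Algebra.algebraMap_eq_smul_one, TensorProduct.smul_tmul]

end Pool.Agent.T2h09.CM
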