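import Pool.Agent.T2h09.CM.Alg

/-!
The functions on the common base are ratios of canonical forms.
-/

set_option autoImplicit false
set_option linter.overlappingInstances false
set_option linter.unusedSectionVars false
set_option linter.unusedVariables false
set_option maxHeartbeats 4000000
set_option synthInstance.maxHeartbeats 400000

open IntermediateField Module
open Pool.Agent.N145.PC (Rt exists_pts exists_generic alg_back ratio_mem)

namespace Pool.Agent.T2h09.CM

/-- two embeddings which agree on a subfield and are different at an element outside of it -/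
theorem sep_pair {L : Type} [Field L] [Algebra ℂ L] (R : IntermediateField ℂ L) {a : L}
    (ha : a ∉ R) : ∃ (Ω' : Type) (_ : Field Ω') (i1 i2 : AlgebraicClosure L →+* Ω'),
      (∀ c ∈ R, i2 (algebraMap L (AlgebraicClosure L) c) =
        i1 (algebraMap L (AlgebraicClosure L) c)) ∧
      i1 (algebraMap L (AlgebraicClosure L) a) ≠ i2 (algebraMap L (AlgebraicClosure L) a) := by
  have hchar : CharZero R := charZero_of_injective_algebraMap (algebraMap ℂ R).injective
  by_cases halg : IsAlgebraic R a
  swap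
  · obtain ⟨Ω', iF, iC, i1, i2, h2, h3⟩ := exists_generic R (AlgebraicClosure L)
    refine ⟨Ω', iF, i1, i2, fun c hc => h2 ⟨c, hc⟩, fun h => halg ?_⟩
    exact (isAlgebraic_algebraMap_iff (algebraMap L (AlgebraicClosure L)).injective).1
      (h3 _ _ h)
  -- the algebraic case
  have hfin : FiniteDimensional R R⟮a⟯ :=
    IntermediateField.adjoin.finiteDimensional halg.isIntegral
  have hcard : Fintype.card (R⟮a⟯ →ₐ[R] AlgebraicClosure L) = finrank R R⟮a⟯ :=
    AlgHom.card R R⟮a⟯ _
  have h1 : finrank R R⟮a⟯ ≠ 1 := by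
    intro h
    rw [IntermediateField.finrank_adjoin_simple_eq_one_iff, IntermediateField.mem_bot] at h
    obtain ⟨c, hc⟩ := h
    apply ha
    rw [← hc]
    exact c.2
  have h2 : 1 < Fintype.card (R⟮a⟯ →ₐ[R] AlgebraicClosure L) := by
    rw [hcard]
    have h3 : 0 < finrank R R⟮a⟯ := finrank_pos
    omega
  let ι0 : R⟮a⟯ →ₐ[R] AlgebraicClosure L :=
    (IsScalarTower.toAlgHom R L (AlgebraicClosure L)).comp R⟮a⟯.val
  obtain ⟨f, hf⟩ : ∃ f : R⟮a⟯ →ₐ[R] AlgebraicClosure L, f ≠ ι0 :=
    haveI := Fintype.one_lt_card_iff_nontrivial.1 h2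
    exists_ne ι0
  have hfa : f (IntermediateField.AdjoinSimple.gen R a) ≠
      algebraMap L (AlgebraicClosure L) a := by
    intro h
    apply hf
    refine IntermediateField.algHom_ext_of_eq_adjoin _ (S := R⟮a⟯) (s := {a}) rfl fun y hy => ?_
    rw [Set.mem_singleton_iff] at hy
    subst hy
    exact h
  obtain ⟨F, iF, i1, i2, h3⟩ := amalgam (ι0 : R⟮a⟯ →+* AlgebraicClosure L)
    (f : R⟮a⟯ →+* AlgebraicClosure L)
  refine ⟨F, iF, i1, i2, fun c hc => ?_, fun h => ?_⟩
  · have h4 := h3 (algebraMap R R⟮a⟯ ⟨c, hc⟩)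
    have h5 : ι0 (algebraMap R R⟮a⟯ ⟨c, hc⟩) = algebraMap L (AlgebraicClosure L) c := by
      rw [ι0.commutes]
      rfl
    have h6 : f (algebraMap R R⟮a⟯ ⟨c, hc⟩) = algebraMap L (AlgebraicClosure L) c := by
      rw [f.commutes]
      rfl
    have h7 : i1 (ι0 (algebraMap R R⟮a⟯ ⟨c, hc⟩)) = i2 (f (algebraMap R R⟮a⟯ ⟨c, hc⟩)) := h4
    rw [h5, h6] at h7
    exact h7.symm
  · have h4 : i1 (ι0 (IntermediateField.AdjoinSimple.gen R a)) =
        i2 (f (IntermediateField.AdjoinSimple.gen R a)) := h3 _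
    have h5 : ι0 (IntermediateField.AdjoinSimple.gen R a) =
        algebraMap L (AlgebraicClosure L) a := rfl
    rw [h5, h] at h4
    exact hfa (i2.injective h4).symm

section

variable {L M : Type} [Field L] [Algebra ℂ L] [Field M] [Algebra ℂ M] [Algebra L M]
  [IsScalarTower ℂ L M] [FiniteDimensional L M] {N m : ℕ} {x : Fin N → M} {j0 : Fin N}

/-- **The functions on the common base are ratios.** -/
theorem mem_ratios (hj0 : x j0 = 1) (hgen : IntermediateField.adjoin L (Set.range x) = ⊤) {t : M}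
    (ht : t ≠ 0) {T : (Fin m → Fin N) → L}
    (hT : ∀ f, T f = Algebra.trace L M ((∏ k, x (f k)) * t)) {f1 : Fin m → Fin N} (h1 : T f1 ≠ 0)
    (hd : 2 * finrank L M ≤ m + 1) {a : L}
    (ha : algebraMap L M a ∈ IntermediateField.adjoin ℂ (Set.range x)) : a ∈ Rt T := by
  have hchar : CharZero L := charZero_of_injective_algebraMap (algebraMap ℂ L).injective
  by_contra hcon
  have hpos : 0 < finrank L M := finrank_pos
  obtain ⟨Ω', iF, i1, i2, h2, h3⟩ := sep_pair (Rt T) hcon
  have hne : ∀ i : AlgebraicClosure L →+* Ω', i (algebraMap L _ (T f1)) ≠ 0 := by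
    intro i
    rw [_root_.map_ne_zero, _root_.map_ne_zero]
    exact h1
  rcases two_fibres hj0 hgen ht i1 i2
    (lam := i2 (algebraMap L _ (T f1)) / i1 (algebraMap L _ (T f1)))
    (div_ne_zero (hne i2) (hne i1)) (fun f => by
      rw [← hT]
      have h4 := h2 _ (ratio_mem T f f1)
      rw [map_div₀, map_div₀, map_div₀, div_eq_div_iff (hne i2) (hne i1)] at h4
      rw [div_mul_eq_mul_div, eq_div_iff (hne i1)]
      linear_combination h4) (by omega) with ⟨σ, τ, h5⟩ | ⟨h5, -⟩
  swap
  · omega
  have h6 : ∀ e ∈ IntermediateField.adjoin ℂ (Set.range x), i1 (σ e) = i2 (τ e) := by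
    intro e he
    induction he using IntermediateField.adjoin_induction with
    | mem z hz =>
      obtain ⟨j, rfl⟩ := hz
      exact h5 j
    | algebraMap z =>
      rw [IsScalarTower.algebraMap_apply ℂ L M, σ.commutes, τ.commutes]
      exact (h2 _ ((Rt T).algebraMap_mem z)).symm
    | add a b _ _ ha hb => simp only [map_add, ha, hb]
    | inv a _ ha => simp only [map_inv₀, ha]
    | mul a b _ _ ha hb => simp only [map_mul, ha, hb]
  have h7 := h6 _ ha
  rw [σ.commutes, τ.commutes] at h7
  exact h3 h7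

end

end Pool.Agent.T2h09.CM
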