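import Pool.Agent.T2h09.CM.Bir
import Pool.Agent.T2h09.ND.Nu
import Pool.Agent.Y184.NT.Dom

/-!
Canonical forms, the canonical image, and traces.
-/

set_option autoImplicit false
set_option linter.overlappingInstances false

open FF Pool.Agent.W602.GT

namespace Pool.Agent.T2h09.CM

section

variable {K : Type} [Field K] [Algebra ℂ K]

/-- `θ` is a canonical form which is regular at all prime divisors, that is, `θ ∈ H⁰ (W, K_W)` for the
smooth projective varieties `W` of dimension `n` with the function field `K`. -/
def IsCanonical (n : ℕ) (θ : (Fin n → Derivation ℂ K K) → K) : Prop :=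
  IsPluri 1 θ ∧ ∀ P : Place ℂ K, Divisorial n P → RegAt P θ

/-- The function field of the canonical image: the field generated by the ratios of the canonical
forms in `H⁰ (W, K_W)`. -/
noncomputable def canonicalField (K : Type) [Field K] [Algebra ℂ K] (n : ℕ) : IntermediateField ℂ K :=
  IntermediateField.adjoin ℂ {f | ∃ θ θ' : (Fin n → Derivation ℂ K K) → K, IsCanonical n θ ∧
    IsCanonical n θ' ∧ (∃ D, θ' D ≠ 0) ∧ ∀ D, θ D = f * θ' D}

/-- `p_g (W) > 0`. -/
def HasForm (K : Type) [Field K] [Algebra ℂ K] (n : ℕ) : Prop :=
  ∃ θ : (Fin n → Derivation ℂ K K) → K, IsCanonical n θ ∧ ∃ D, θ D ≠ 0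

/-- `ω` is a nonzero section of `K_V - m H`, where `H` is the pull-back of the hyperplane class under
the map with the homogeneous coordinates `x`: the products of `ω` and the monomials of degree `m` in
`x` are regular at all prime divisors. -/
structure IsSection {N : ℕ} (n m : ℕ) (x : Fin N → K) (ω : (Fin n → Derivation ℂ K K) → K) :
    Prop where
  form : IsPluri 1 ω
  ne : ∃ D, ω D ≠ 0
  reg : ∀ (f : Fin m → Fin N) (P : Place ℂ K), Divisorial n P →
    RegAt P (fun D => (∏ k, x (f k)) * ω D)

/-- The trace of the form `ω` to the variety with the function field `M` is not zero. Its value on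
the vector fields `D i` of `M` is the trace of the value of `ω` on the extensions `D' i` of the `D i`
to `K`. -/
def TraceNe {L : Type} [Field L] [Algebra ℂ L] [Algebra L K] [IsScalarTower ℂ L K] {n : ℕ}
    (M : IntermediateField L K) (ω : (Fin n → Derivation ℂ K K) → K) : Prop :=
  ∃ (D : Fin n → Derivation ℂ M M) (D' : Fin n → Derivation ℂ K K),
    (∀ i f, D' i (algebraMap M K f) = algebraMap M K (D i f)) ∧ Algebra.trace M K (ω D') ≠ 0

end

end Pool.Agent.T2h09.CM
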