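import Pool.Agent.T2h09.CM.Defs

/-!
The canonical image of the varieties dominated by a variety with positive canonical class.
-/

set_option autoImplicit false
set_option linter.overlappingInstances false
set_option linter.unusedSectionVars false
set_option linter.unusedVariables false
set_option maxHeartbeats 4000000
set_option synthInstance.maxHeartbeats 400000

open IntermediateField Module FF Pool.Agent.W602.GT
open Pool.Agent.N145.PC (Rt ratio_mem)
open Pool.Agent.Y184.NT (trForm trForm_pluri trForm_reg pull pull_pluri)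
open Pool.Agent.N145.SX (CanGe canGe_of_alg)

namespace Pool.Agent.T2h09.CM

/-- covers by rational curves and isomorphisms -/
theorem cover_congr {E E' : Type} [Field E] [Field E'] [Algebra ℂ E] [Algebra ℂ E']
    (e : E ≃ₐ[ℂ] E') (h : RationalCurvesCover E) : RationalCurvesCover E' := by
  obtain ⟨M, i1, i2, hM, φ, z, hz⟩ := h
  refine ⟨M, i1, i2, hM, φ.comp e.symm.toAlgHom, e z, fun c hc => hz c ?_⟩
  rw [← hc]
  simp

section

variable {K L : Type} [Field K] [Field L] [Algebra ℂ K] [Algebra ℂ L] [Algebra L K]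
  [IsScalarTower ℂ L K] [FiniteDimensional L K] [Algebra.EssFiniteType ℂ K] {n m N e : ℕ}

/-- coordinates and vector fields on `W`, and their extensions -/
theorem exists_frame (hK : Algebra.trdeg ℂ K = n) (M : IntermediateField L K) :
    ∃ (y : Fin n → L) (G : Fin n → Derivation ℂ L L) (G' : Fin n → Derivation ℂ K K)
      (GM : Fin n → Derivation ℂ M M),
      IsTranscendenceBasis ℂ y ∧ (∀ i j, G i (y j) = if i = j then 1 else 0) ∧
      (∀ i f, G' i (algebraMap L K f) = algebraMap L K (G i f)) ∧
      ∀ i f, G' i (algebraMap M K f) = algebraMap M K (GM i f) := by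
  have hL : Algebra.trdeg ℂ L = n := Pool.Agent.Y184.NT.trdeg_below (K := K) hK
  have hessL : Algebra.EssFiniteType ℂ L := Pool.Agent.TH466.QG.ess_below (K := K)
  have hMK : FiniteDimensional M K := FiniteDimensional.right L M K
  have hLM : FiniteDimensional L M := inferInstance
  have : IsScalarTower ℂ M K := IsScalarTower.of_algebraMap_eq fun c => by
    rw [IsScalarTower.algebraMap_apply ℂ L K, IsScalarTower.algebraMap_apply ℂ L M]
    rfl
  have hM : Algebra.trdeg ℂ M = n := Pool.Agent.Y184.NT.trdeg_below (K := K) hK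
  have hessM : Algebra.EssFiniteType ℂ M := Pool.Agent.TH466.QG.ess_below (K := K)
  obtain ⟨y, G, hy, hG⟩ := Pool.Agent.Y172.exists_crd (k := ℂ) (K := L) hL
  choose GM hGM using fun i => Pool.Agent.Y172.exists_lift (k := ℂ) (K := L) (L := M) hL (G i)
  choose G' hG' using fun i => Pool.Agent.Y172.exists_lift (k := ℂ) (K := M) (L := K) hM (GM i)
  refine ⟨y, G, G', GM, hy, hG, fun i f => ?_, hG'⟩
  have h1 := hG' i (algebraMap L M f)
  rw [hGM] at h1
  exact h1

/-- the trace in the coordinates -/
theorem trace_ne {M : IntermediateField L K} {ω : (Fin n → Derivation ℂ K K) → K}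
    (hω : IsPluri 1 ω) {y : Fin n → L} {G : Fin n → Derivation ℂ L L}
    {G' : Fin n → Derivation ℂ K K} (hy : IsTranscendenceBasis ℂ y)
    (hG : ∀ i j, G i (y j) = if i = j then 1 else 0)
    (hG' : ∀ i f, G' i (algebraMap L K f) = algebraMap L K (G i f)) (h : TraceNe M ω) :
    Algebra.trace M K (ω G') ≠ 0 := by
  obtain ⟨D, D', hD, h0⟩ := h
  intro h1
  apply h0
  have hyK : IsTranscendenceBasis ℂ (fun j => algebraMap L K (y j)) := hy.algebraMap_comp
  have h2 := Pool.Agent.Y172.pluri_coord hyK (Pool.Agent.Y172.lift_dual hG hG') hω D'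
  rw [pow_one] at h2
  have h3 : (Matrix.of fun i j => D' i (algebraMap L K (y j)) : Matrix (Fin n) (Fin n) K).det =
      algebraMap M K (Matrix.of fun i j => D i (algebraMap L M (y j)) :
        Matrix (Fin n) (Fin n) M).det := by
    rw [RingHom.map_det]
    congr 1
    ext i j
    rw [Matrix.of_apply, RingHom.mapMatrix_apply, Matrix.map_apply, Matrix.of_apply]
    exact hD i (algebraMap L M (y j))
  rw [h2, h3, ← Algebra.smul_def, map_smul, h1, smul_zero]

/-- forms and traces -/
theorem trace_tower {x : Fin N → K} {M : IntermediateField L K} (hx : ∀ j, x j ∈ M) (w : K)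
    (f : Fin m → Fin N) : Algebra.trace L K ((∏ k, x (f k)) * w) =
      Algebra.trace L M ((∏ k, (⟨x (f k), hx _⟩ : M)) * Algebra.trace M K w) := by
  have hMK : FiniteDimensional M K := FiniteDimensional.right L M K
  rw [← Algebra.trace_trace (S := M)]
  congr 1
  have h1 : (∏ k, x (f k)) * w = (∏ k, (⟨x (f k), hx _⟩ : M)) • w := by
    rw [Algebra.smul_def, map_prod]
    rfl
  rw [h1, map_smul, smul_eq_mul]

/-- the trace forms -/
theorem theta_canonical (hK : Algebra.trdeg ℂ K = n) {x : Fin N → K}
    {ω : (Fin n → Derivation ℂ K K) → K} (hω : IsSection n m x ω) {y : Fin n → L}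
    {G : Fin n → Derivation ℂ L L} {G' : Fin n → Derivation ℂ K K}
    (hy : IsTranscendenceBasis ℂ y) (hG : ∀ i j, G i (y j) = if i = j then 1 else 0)
    (hG' : ∀ i f, G' i (algebraMap L K f) = algebraMap L K (G i f)) (f : Fin m → Fin N) :
    IsCanonical n (trForm y (Algebra.trace L K ((∏ k, x (f k)) * ω G'))) := by
  have hL : Algebra.trdeg ℂ L = n := Pool.Agent.Y184.NT.trdeg_below (K := K) hK
  have hessL : Algebra.EssFiniteType ℂ L := Pool.Agent.TH466.QG.ess_below (K := K)
  refine ⟨trForm_pluri y _, fun P hP => ?_⟩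
  exact trForm_reg hL hy hG hG' (fun D => (∏ k, x (f k)) * ω D) (by
    intro A D
    change (∏ k, x (f k)) * ω (fun i => ∑ j, A i j • D j) = _
    rw [hω.form A D]
    ring) (hω.reg f) P hP

theorem theta_frame {y : Fin n → L} {G : Fin n → Derivation ℂ L L}
    (hG : ∀ i j, G i (y j) = if i = j then 1 else 0) (t : L) : trForm y t G = t := by
  have h1 : (Matrix.of fun i j => G i (y j) : Matrix (Fin n) (Fin n) L) = 1 := by
    ext i j
    rw [Matrix.of_apply, hG, Matrix.one_apply]
  rw [trForm, h1, Matrix.det_one, one_mul]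

/-- ratios of trace forms are ratios of canonical forms -/
theorem ratio_le {y : Fin n → L} {G : Fin n → Derivation ℂ L L}
    (hG : ∀ i j, G i (y j) = if i = j then 1 else 0) {ι : Type} {T : ι → L}
    (h : ∀ f, IsCanonical n (trForm y (T f))) : Rt T ≤ canonicalField L n := by
  unfold Rt
  rw [IntermediateField.adjoin_le_iff]
  rintro _ ⟨⟨f, g⟩, rfl⟩
  by_cases hg : T g = 0
  · change T f / T g ∈ _
    rw [hg, div_zero]
    exact zero_mem _
  · refine IntermediateField.subset_adjoin _ _ ⟨_, _, h f, h g, ⟨G, ?_⟩, fun D => ?_⟩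
    · rw [theta_frame hG]
      exact hg
    · change _ * T f = T f / T g * (_ * T g)
      field_simp

/-- the pull-back of a canonical form -/
theorem pull_canonical (hK : Algebra.trdeg ℂ K = n) {y : Fin n → L}
    {G : Fin n → Derivation ℂ L L} (hy : IsTranscendenceBasis ℂ y)
    (hG : ∀ i j, G i (y j) = if i = j then 1 else 0) {θ : (Fin n → Derivation ℂ L L) → L}
    (hθ : IsCanonical n θ) : IsCanonical (K := K) n (pull y (θ G)) := by
  have hL : Algebra.trdeg ℂ L = n := Pool.Agent.Y184.NT.trdeg_below (K := K) hK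
  have hessL : Algebra.EssFiniteType ℂ L := Pool.Agent.TH466.QG.ess_below (K := K)
  refine ⟨pull_pluri _ _, fun Q hQ D hD => ?_⟩
  exact Pool.Agent.Y297.NT.t_Pull Pool.Agent.Y71.NT.t_abh L K n n hL hK y hy G hG θ hθ.1 hθ.2
    Q hQ D hD

theorem pull_frame {y : Fin n → L} {G : Fin n → Derivation ℂ L L}
    {G' : Fin n → Derivation ℂ K K} (hG : ∀ i j, G i (y j) = if i = j then 1 else 0)
    (hG' : ∀ i f, G' i (algebraMap L K f) = algebraMap L K (G i f)) (t : L) :
    pull y t G' = algebraMap L K t := by
  have h1 : (Matrix.of fun i j => G' i (algebraMap L K (y j)) : Matrix (Fin n) (Fin n) K) = 1 := by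
    ext i j
    rw [Matrix.of_apply, Pool.Agent.Y172.lift_dual hG hG', Matrix.one_apply]
  rw [pull, h1, Matrix.det_one, one_mul]

end

end Pool.Agent.T2h09.CM
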