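import Pool.Agent.N145.SX.Tri
import Pool.Agent.Y153.NT.CB
import Pool.Agent.Y954.NT.GT

/-!
The points of two fibres with the same image under the canonical map.
-/

set_option autoImplicit false
set_option linter.overlappingInstances false
set_option linter.unusedSectionVars false
set_option linter.unusedVariables false
set_option maxHeartbeats 4000000
set_option synthInstance.maxHeartbeats 400000

open IntermediateField Module

namespace Pool.Agent.T2h09.CM

/-- from monomials to all products of linear forms -/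
theorem rel_all {Ω : Type} [Field Ω] {N m : ℕ} {ι : Type} (S : Finset ι) (v : ι → Fin N → Ω)
    (c : ι → Ω) (h : ∀ f : Fin m → Fin N, ∑ s ∈ S, c s * ∏ k, v s (f k) = 0)
    (l : Fin m → Module.Dual Ω (Fin N → Ω)) : ∑ s ∈ S, c s * ∏ k, l k (v s) = 0 := by
  have h1 : ∀ s ∈ S, c s * ∏ k, l k (v s) = ∑ f : Fin m → Fin N,
      (∏ k, l k (Pi.single (f k) 1)) * (c s * ∏ k, v s (f k)) := by
    intro s _
    rw [Pool.Agent.Y954.NT.exp_l l (fun _ => v s), Finset.mul_sum]
    refine Finset.sum_congr rfl fun f _ => ?_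
    ring
  rw [Finset.sum_congr rfl h1, Finset.sum_comm]
  refine Finset.sum_eq_zero fun f _ => ?_
  rw [← Finset.mul_sum, h f, mul_zero]

/-- two vectors with a coordinate `1` are independent if they are different -/
theorem li_of_ne {Ω : Type} [Field Ω] {N : ℕ} {v w : Fin N → Ω} {j0 : Fin N} (hv : v j0 = 1)
    (hw : w j0 = 1) (h : v ≠ w) : LinearIndependent Ω ![v, w] := by
  rw [LinearIndependent.pair_iff]
  intro s t hst
  have h1 := congrFun hst j0
  simp only [Pi.add_apply, Pi.smul_apply, smul_eq_mul, hv, hw, mul_one, Pi.zero_apply] at h1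
  have h2 : t = -s := by linear_combination h1
  subst h2
  by_cases hs : s = 0
  · simp [hs]
  · exfalso
    apply h
    funext j
    have h3 := congrFun hst j
    simp only [Pi.add_apply, Pi.smul_apply, smul_eq_mul, Pi.zero_apply] at h3
    have h4 : s * (v j - w j) = 0 := by linear_combination h3
    exact sub_eq_zero.1 ((mul_eq_zero.1 h4).resolve_left hs)

section

variable {L M : Type} [Field L] [CharZero L] [Field M] [Algebra L M] [FiniteDimensional L M]
  {N m : ℕ} {x : Fin N → M} {j0 : Fin N}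

/-- **The points of two fibres.** -/
theorem two_fibres (hj0 : x j0 = 1) (hgen : IntermediateField.adjoin L (Set.range x) = ⊤) {t : M}
    (ht : t ≠ 0) {Ω' : Type} [Field Ω'] (i1 i2 : AlgebraicClosure L →+* Ω') {lam : Ω'}
    (hlam : lam ≠ 0)
    (hT : ∀ f : Fin m → Fin N,
      i2 (algebraMap L (AlgebraicClosure L) (Algebra.trace L M ((∏ k, x (f k)) * t))) =
      lam * i1 (algebraMap L (AlgebraicClosure L) (Algebra.trace L M ((∏ k, x (f k)) * t))))
    (hd : finrank L M ≤ m) :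
    (∃ σ τ : M →ₐ[L] AlgebraicClosure L, ∀ j, i1 (σ (x j)) = i2 (τ (x j))) ∨
    (m + 2 ≤ 2 * finrank L M ∧
      ∃ (σ1 σ2 σ3 : M →ₐ[L] AlgebraicClosure L) (s : Ω'), ∀ j,
        i2 (σ3 (x j)) = i1 (σ1 (x j)) + s * (i1 (σ2 (x j)) - i1 (σ1 (x j)))) := by
  classical
  by_cases hco : ∃ σ τ : M →ₐ[L] AlgebraicClosure L, ∀ j, i1 (σ (x j)) = i2 (τ (x j))
  · exact Or.inl hco
  right
  push Not at hco
  have hcard : Fintype.card (M →ₐ[L] AlgebraicClosure L) = finrank L M := AlgHom.card L M _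
  obtain ⟨v, hv⟩ : ∃ v : (M →ₐ[L] AlgebraicClosure L) ⊕ (M →ₐ[L] AlgebraicClosure L) →
    Fin N → Ω', v = Sum.elim (fun σ j => i1 (σ (x j))) (fun σ j => i2 (σ (x j))) := ⟨_, rfl⟩
  obtain ⟨c, hc⟩ : ∃ c : (M →ₐ[L] AlgebraicClosure L) ⊕ (M →ₐ[L] AlgebraicClosure L) → Ω',
    c = Sum.elim (fun σ => -(lam * i1 (σ t))) (fun σ => i2 (σ t)) := ⟨_, rfl⟩
  have hvl : ∀ σ, v (Sum.inl σ) = fun j => i1 (σ (x j)) := fun σ => by rw [hv]; rfl
  have hvr : ∀ σ, v (Sum.inr σ) = fun j => i2 (σ (x j)) := fun σ => by rw [hv]; rfl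
  have hv0 : ∀ s, v s j0 = 1 := by
    rintro (σ | σ)
    · rw [hvl]
      beta_reduce
      rw [hj0, map_one, map_one]
    · rw [hvr]
      beta_reduce
      rw [hj0, map_one, map_one]
  have hinj : ∀ (i : AlgebraicClosure L →+* Ω') (σ σ' : M →ₐ[L] AlgebraicClosure L),
      (∀ j, i (σ (x j)) = i (σ' (x j))) → σ = σ' := fun i σ σ' h =>
    Pool.Agent.Y614.NT.emb_ext x hgen σ σ' fun j => i.injective (h j)
  have hne : ∀ s s', s ≠ s' → v s ≠ v s' := by
    rintro (σ | σ) (τ | τ) hst h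
    · rw [hvl, hvl] at h
      exact hst (congrArg Sum.inl (hinj i1 σ τ fun j => congrFun h j))
    · rw [hvl, hvr] at h
      obtain ⟨j, hj⟩ := hco σ τ
      exact hj (congrFun h j)
    · rw [hvl, hvr] at h
      obtain ⟨j, hj⟩ := hco τ σ
      exact hj (congrFun h j).symm
    · rw [hvr, hvr] at h
      exact hst (congrArg Sum.inr (hinj i2 σ τ fun j => congrFun h j))
  obtain ⟨σ0⟩ : Nonempty (M →ₐ[L] AlgebraicClosure L) :=
    ⟨IsAlgClosed.lift (R := L) (M := AlgebraicClosure L) (S := M)⟩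
  have hcard2 : (Finset.univ : Finset ((M →ₐ[L] AlgebraicClosure L) ⊕
      (M →ₐ[L] AlgebraicClosure L))).card = 2 * finrank L M := by
    rw [Finset.card_univ, Fintype.card_sum, hcard]
    omega
  have hrel : ∀ f : Fin m → Fin N, ∑ s, c s * ∏ k, v s (f k) = 0 := by
    intro f
    have h1 := hT f
    rw [trace_eq_sum_embeddings (K := L) (L := M) (AlgebraicClosure L), map_sum, map_sum] at h1
    rw [Fintype.sum_sum_type, hc]
    simp only [hvl, hvr, Sum.elim_inl, Sum.elim_inr]
    have h2 : ∀ σ : M →ₐ[L] AlgebraicClosure L, -(lam * i1 (σ t)) * ∏ k, i1 (σ (x (f k))) =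
        -(lam * i1 (σ ((∏ k, x (f k)) * t))) := by
      intro σ
      rw [map_mul, map_mul, map_prod, map_prod]
      ring
    have h3 : ∀ σ : M →ₐ[L] AlgebraicClosure L, i2 (σ t) * ∏ k, i2 (σ (x (f k))) =
        i2 (σ ((∏ k, x (f k)) * t)) := by
      intro σ
      rw [map_mul, map_mul, map_prod, map_prod]
      ring
    rw [Finset.sum_congr rfl fun σ _ => h2 σ, Finset.sum_congr rfl fun σ _ => h3 σ, h1,
      Finset.sum_neg_distrib, ← Finset.mul_sum, neg_add_cancel]
  obtain ⟨hm2, hspan⟩ := Pool.Agent.Y153.NT.stCB Ω' N _ m Finset.univ v c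
    ⟨Sum.inl σ0, Finset.mem_univ _⟩ (by
      rintro (σ | σ) _
      · rw [hc]
        simp only [Sum.elim_inl]
        rw [neg_ne_zero]
        refine mul_ne_zero hlam ?_
        rw [_root_.map_ne_zero, _root_.map_ne_zero]
        exact ht
      · rw [hc]
        simp only [Sum.elim_inr]
        rw [_root_.map_ne_zero, _root_.map_ne_zero]
        exact ht)
    (fun s _ h => by
      have h1 := hv0 s
      rw [h] at h1
      exact zero_ne_one h1)
    (fun s _ s' _ h => li_of_ne (hv0 s) (hv0 s') (hne s s' h))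
    (rel_all _ v c hrel) (by rw [hcard2]; omega)
  rw [hcard2] at hm2
  refine ⟨hm2, ?_⟩
  have h2 : 1 < Fintype.card (M →ₐ[L] AlgebraicClosure L) := by
    rw [hcard]
    omega
  obtain ⟨σ1, σ2, h12⟩ := Fintype.one_lt_card_iff.1 h2
  have h3 := hspan (Sum.inl σ1) (Finset.mem_univ _) (Sum.inl σ2) (Finset.mem_univ _)
    (fun h => h12 (Sum.inl_injective h)) (Sum.inr σ0) (Finset.mem_univ _)
  rw [Submodule.mem_span_pair] at h3
  obtain ⟨a, b, hab⟩ := h3
  refine ⟨σ1, σ2, σ0, b, fun j => ?_⟩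
  have h4 := congrFun hab j0
  have h5 := congrFun hab j
  simp only [Pi.add_apply, Pi.smul_apply, smul_eq_mul, hv0, mul_one] at h4
  simp only [Pi.add_apply, Pi.smul_apply, smul_eq_mul, hvl, hvr] at h5
  rw [← h5]
  linear_combination (i1 (σ1 (x j))) * h4

/-- not all traces vanish -/
theorem exists_trace (hj0 : x j0 = 1) (hgen : IntermediateField.adjoin L (Set.range x) = ⊤)
    {t : M} (ht : t ≠ 0) (hd : finrank L M ≤ m + 1) :
    ∃ f : Fin m → Fin N, Algebra.trace L M ((∏ k, x (f k)) * t) ≠ 0 := by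
  by_contra hcon
  push Not at hcon
  have h1 := (Pool.Agent.Y614.NT.stLine Pool.Agent.Y153.NT.stCB L M N m x j0 hj0 hgen t ht hcon
    (by omega)).1
  omega

end

end Pool.Agent.T2h09.CM
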