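import Pool.Agent.T2h09.CM.Main

/-!
The canonical image of the varieties dominated by a variety with positive canonical class: the
theorems.
-/

set_option autoImplicit false
set_option linter.overlappingInstances false
set_option linter.unusedSectionVars false
set_option linter.unusedVariables false
set_option maxHeartbeats 4000000
set_option synthInstance.maxHeartbeats 400000

open IntermediateField Module FF Pool.Agent.W602.GT
open Pool.Agent.N145.PC (Rt ratio_mem)
open Pool.Agent.Y184.NT (trForm trForm_pluri trForm_reg pull pull_pluri)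
open Pool.Agent.N145.SX (CanGe canGe_of_alg)

namespace Pool.Agent.T2h09.CM

section

variable {K L : Type} [Field K] [Field L] [Algebra ℂ K] [Algebra ℂ L] [Algebra L K]
  [IsScalarTower ℂ L K] [FiniteDimensional L K] [Algebra.EssFiniteType ℂ K] {n m N e : ℕ}

/-- the field generated over `L`, as the field generated by the elements of `M` -/
theorem gen_top {x : Fin N → K} {M : IntermediateField L K}
    (hM : M = IntermediateField.adjoin L (Set.range x)) (hx : ∀ j, x j ∈ M) :
    IntermediateField.adjoin L (Set.range fun j => (⟨x j, hx j⟩ : M)) = ⊤ := by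
  apply IntermediateField.map_injective M.val
  rw [IntermediateField.adjoin_map]
  have h1 : (⇑M.val '' Set.range fun j => (⟨x j, hx j⟩ : M)) = Set.range x := by
    rw [← Set.range_comp]
    rfl
  rw [h1, ← hM, ← AlgHom.fieldRange_eq_map, IntermediateField.fieldRange_val]

/-- the field generated by the functions on the base -/
theorem map_base {x : Fin N → K} {M : IntermediateField L K} (hx : ∀ j, x j ∈ M) :
    (IntermediateField.adjoin ℂ (Set.range fun j => (⟨x j, hx j⟩ : M))).map
      (M.val.restrictScalars ℂ) = IntermediateField.adjoin ℂ (Set.range x) := by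
  rw [IntermediateField.adjoin_map]
  congr 1
  have h1 : (⇑(M.val.restrictScalars ℂ) '' Set.range fun j => (⟨x j, hx j⟩ : M)) =
      Set.range x := by
    rw [← Set.range_comp]
    rfl
  rw [h1]

variable (hK : Algebra.trdeg ℂ K = n) {x : Fin N → K} {j0 : Fin N} (hj0 : x j0 = 1)
  {ω : (Fin n → Derivation ℂ K K) → K} (hω : IsSection n m x ω) {M : IntermediateField L K}
  (hM : M = IntermediateField.adjoin L (Set.range x))

include hK hj0 hω hM

/-- **Traces.** -/
theorem traces (htr : TraceNe M ω) (hd : finrank L M ≤ m + 1) :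
    HasForm L n ∧
    ((2 * finrank L M ≤ m + 1 ∨ finrank L M ≤ m ∧
      ¬ RationalCurvesCover (IntermediateField.adjoin ℂ (Set.range x))) →
      (∀ j, IsAlgebraic (canonicalField L n) (x j)) ∧
      ∀ e : ℕ, Algebra.trdeg ℂ (IntermediateField.adjoin ℂ (Set.range x)) = e →
        CanGe L n e) ∧
    (2 * finrank L M ≤ m + 1 → ∀ a : L,
      algebraMap L K a ∈ IntermediateField.adjoin ℂ (Set.range x) → a ∈ canonicalField L n) := by
  have hL : Algebra.trdeg ℂ L = n := Pool.Agent.Y184.NT.trdeg_below (K := K) hK
  have hessL : Algebra.EssFiniteType ℂ L := Pool.Agent.TH466.QG.ess_below (K := K)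
  have hchar : CharZero L := charZero_of_injective_algebraMap (algebraMap ℂ L).injective
  have hMK : FiniteDimensional M K := FiniteDimensional.right L M K
  have hLM : FiniteDimensional L M := inferInstance
  have hpos : 0 < finrank L M := finrank_pos
  have hxM : ∀ j, x j ∈ M := fun j => by
    rw [hM]
    exact IntermediateField.subset_adjoin _ _ ⟨j, rfl⟩
  obtain ⟨x', hx'⟩ : ∃ x' : Fin N → M, x' = fun j => ⟨x j, hxM j⟩ := ⟨_, rfl⟩
  have hgen : IntermediateField.adjoin L (Set.range x') = ⊤ := by
    rw [hx']
    exact gen_top hM hxM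
  have hj0' : x' j0 = 1 := by
    rw [hx']
    exact Subtype.ext hj0
  obtain ⟨y, G, G', GM, hy, hG, hG', hGM⟩ := exists_frame hK M
  have ht := trace_ne hω.form hy hG hG' htr
  obtain ⟨T, hT⟩ : ∃ T : (Fin m → Fin N) → L, ∀ f, T f =
    Algebra.trace L K ((∏ k, x (f k)) * ω G') := ⟨_, fun _ => rfl⟩
  have hT' : ∀ f, T f = Algebra.trace L M ((∏ k, x' (f k)) * Algebra.trace M K (ω G')) := by
    intro f
    rw [hT, trace_tower hxM, hx']
  have hcan : ∀ f, IsCanonical n (trForm y (T f)) := fun f => by
    rw [hT]
    exact theta_canonical hK hω hy hG hG' f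
  obtain ⟨f1, hf1⟩ := exists_trace hj0' hgen ht hd
  rw [← hT'] at hf1
  refine ⟨⟨_, hcan f1, G, by rw [theta_frame hG]; exact hf1⟩, fun h => ?_, fun h a ha => ?_⟩
  · have hdm : finrank L M ≤ m := by
      rcases h with h | h
      · omega
      · exact h.1
    have halg : ∀ j, IsAlgebraic (Rt T) (x' j) := by
      refine fun j => alg_base hj0' hgen ht hT' hf1 hdm ?_ j
      rcases h with h | h
      · exact Or.inl h
      · right
        intro hc
        apply h.2
        let e1 := (IntermediateField.adjoin ℂ (Set.range x')).equivMap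
          (M.val.restrictScalars ℂ)
        have h1 := cover_congr e1 hc
        have h2 : (IntermediateField.adjoin ℂ (Set.range x')).map (M.val.restrictScalars ℂ) =
            IntermediateField.adjoin ℂ (Set.range x) := by
          rw [hx']
          exact map_base hxM
        rwa [h2] at h1
    have halgK : ∀ j, IsAlgebraic (Rt T) (x j) := by
      intro j
      have h1 := (halg j).algebraMap (A := K)
      rw [hx'] at h1
      exact h1
    have hle := ratio_le hG hcan
    refine ⟨fun j => ?_, fun e he => canGe_of_alg hL hG T ⟨f1, hf1⟩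
      (fun f P hP => (hcan f).2 P hP) he halgK⟩
    obtain ⟨p, hp0, hp⟩ := halgK j
    let f : Rt T →+* canonicalField L n := (IntermediateField.inclusion hle).toRingHom
    refine ⟨p.map f, (Polynomial.map_ne_zero_iff f.injective).2 hp0, ?_⟩
    rw [Polynomial.aeval_def, Polynomial.eval₂_map]
    exact hp
  · refine ratio_le hG hcan (mem_ratios hj0' hgen ht hT' hf1 h ?_)
    rw [← map_base hxM] at ha
    obtain ⟨b, hb, hb2⟩ := ha
    have h1 : b = algebraMap L M a := Subtype.ext hb2
    rw [h1] at hb
    rw [hx']
    exact hb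

omit hM hj0 in
/-- **The trace is not zero.** If all canonical forms of `V` are multiples of `ω` by functions on the
base, and `p_g (W) > 0`. -/
theorem traceNe_of_form (hM : ∀ j, x j ∈ M)
    (hcan : ∀ θ : (Fin n → Derivation ℂ K K) → K, IsCanonical n θ →
      ∃ g ∈ IntermediateField.adjoin ℂ (Set.range x), ∀ D, θ D = g * ω D)
    (h : HasForm L n) : TraceNe M ω := by
  have hMK : FiniteDimensional M K := FiniteDimensional.right L M K
  obtain ⟨y, G, G', GM, hy, hG, hG', hGM⟩ := exists_frame hK M
  obtain ⟨θ, hθ, D, hD⟩ := h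
  have h1 : θ G ≠ 0 := by
    intro h0
    apply hD
    rw [Pool.Agent.Y172.pluri_coord hy hG hθ.1 D, h0, mul_zero]
  obtain ⟨g, hg, hg2⟩ := hcan _ (pull_canonical (K := K) hK hy hG hθ)
  have h2 := hg2 G'
  rw [pull_frame hG hG'] at h2
  have hle : IntermediateField.adjoin ℂ (Set.range x) ≤ M.restrictScalars ℂ := by
    rw [IntermediateField.adjoin_le_iff]
    rintro _ ⟨j, rfl⟩
    exact hM j
  have hg0 : g ≠ 0 := by
    rintro rfl
    rw [zero_mul] at h2
    exact h1 ((_root_.map_eq_zero _).1 h2)
  have hgM : g ∈ M := hle hg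
  have h3 : ω G' ∈ M := by
    have h4 : ω G' = algebraMap L K (θ G) / g := by
      rw [h2]
      field_simp
    rw [h4]
    exact div_mem (M.algebraMap_mem _) hgM
  refine ⟨GM, G', hGM, ?_⟩
  have h5 : ω G' = algebraMap M K ⟨ω G', h3⟩ := rfl
  rw [h5, Algebra.trace_algebraMap, nsmul_eq_mul]
  have hchar : CharZero M := charZero_of_injective_algebraMap (algebraMap ℂ M).injective
  have hpos : 0 < finrank M K := finrank_pos
  refine mul_ne_zero (by exact_mod_cast hpos.ne') fun h6 => ?_
  have h7 : ω G' = 0 := congrArg Subtype.val h6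
  rw [h7, mul_zero, _root_.map_eq_zero] at h2
  exact h1 h2

omit hj0 hM in
/-- the trace to the whole field -/
theorem traceNe_top (hM : M = ⊤) : TraceNe M ω := by
  have hMK : FiniteDimensional M K := FiniteDimensional.right L M K
  obtain ⟨y, G, G', GM, hy, hG, hG', hGM⟩ := exists_frame hK M
  obtain ⟨D, hD⟩ := hω.ne
  have hyK : IsTranscendenceBasis ℂ (fun j => algebraMap L K (y j)) := hy.algebraMap_comp
  have h2 := Pool.Agent.Y172.pluri_coord hyK (Pool.Agent.Y172.lift_dual hG hG') hω.form D
  have h3 : ω G' ≠ 0 := by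
    intro h0
    apply hD
    rw [h2, h0, mul_zero]
  have h4 : ω G' ∈ M := by
    rw [hM]
    trivial
  refine ⟨GM, G', hGM, ?_⟩
  have h5 : ω G' = algebraMap M K ⟨ω G', h4⟩ := rfl
  rw [h5, Algebra.trace_algebraMap, nsmul_eq_mul]
  have hchar : CharZero M := charZero_of_injective_algebraMap (algebraMap ℂ M).injective
  have hpos : 0 < finrank M K := finrank_pos
  refine mul_ne_zero (by exact_mod_cast hpos.ne') fun h6 => h3 ?_
  exact congrArg Subtype.val h6

omit hj0 hM in
/-- the ratios of the canonical forms are functions on the base -/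
theorem canonical_le
    (hcan : ∀ θ : (Fin n → Derivation ℂ K K) → K, IsCanonical n θ →
      ∃ g ∈ IntermediateField.adjoin ℂ (Set.range x), ∀ D, θ D = g * ω D) {a : L}
    (ha : a ∈ canonicalField L n) :
    algebraMap L K a ∈ IntermediateField.adjoin ℂ (Set.range x) := by
  obtain ⟨y, G, G', GM, hy, hG, hG', hGM⟩ := exists_frame hK (⊤ : IntermediateField L K)
  have h0 : canonicalField L n ≤ (IntermediateField.adjoin ℂ (Set.range x)).comap
      (IsScalarTower.toAlgHom ℂ L K) := by
    unfold canonicalField
    rw [IntermediateField.adjoin_le_iff]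
    rintro f ⟨θ, θ', hθ, hθ', ⟨D, hD⟩, hf⟩
    change algebraMap L K f ∈ IntermediateField.adjoin ℂ (Set.range x)
    have h1 : θ' G ≠ 0 := by
      intro h0
      apply hD
      rw [Pool.Agent.Y172.pluri_coord hy hG hθ'.1 D, h0, mul_zero]
    obtain ⟨g, hg, hg2⟩ := hcan _ (pull_canonical (K := K) hK hy hG hθ)
    obtain ⟨g', hg', hg2'⟩ := hcan _ (pull_canonical (K := K) hK hy hG hθ')
    have h2 := hg2 G'
    have h2' := hg2' G'
    rw [pull_frame hG hG'] at h2 h2'
    have h3 := hf G
    rw [h3, map_mul, h2'] at h2
    have h4 : g' ≠ 0 := by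
      rintro rfl
      rw [zero_mul] at h2'
      exact h1 ((_root_.map_eq_zero _).1 h2')
    have h5 : ω G' ≠ 0 := by
      intro h6
      rw [h6, mul_zero] at h2'
      exact h1 ((_root_.map_eq_zero _).1 h2')
    have h6 : algebraMap L K f = g / g' := by
      rw [eq_div_iff h4]
      refine mul_right_cancel₀ h5 ?_
      rw [mul_assoc]
      exact h2
    rw [h6]
    exact div_mem hg hg'
  exact h0 ha

omit hM in
/-- varieties with positive canonical class are not covered by rational curves -/
theorem not_cover (hx : IntermediateField.adjoin ℂ (Set.range x) = ⊤) :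
    ¬ RationalCurvesCover (IntermediateField.adjoin ℂ (Set.range x)) := by
  intro h
  rw [hx] at h
  refine not_cover_of_form hK hω.form (fun P hP => ?_) hω.ne
    (cover_congr IntermediateField.topEquiv h)
  have h1 := hω.reg (fun _ => j0) P hP
  simp only [hj0, Finset.prod_const_one, one_mul] at h1
  exact h1

end

end Pool.Agent.T2h09.CM
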